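import Pool.Agent.Lib.MP_19d7db_an_S.Recur

/-!
# A number attached to a cone, increasing under inclusion

For the cone `{a x + b y : a b ≥ 0}` in a tangent plane of a phase point with `S = sin θ` we use
the number `-x₂ y₂ / (S |x ∧ y|)`.  It is invariant under the derivative of the billiard map
between two neutral sides and it increases when the cone increases.
-/

open Complex Set Filter Topology MeasureTheory

namespace Pool.Agent.Lib.MP_19d7db_an

/-- The number `-x₂ y₂ / (S |x ∧ y|)` of a cone. -/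
noncomputable def cnum (S : ℝ) (x y : ℝ × ℝ) : ℝ :=
  -(x.2 * y.2) / (S * |x.1 * y.2 - x.2 * y.1|)

lemma coef_of_cone {a b c d : ℝ} (hab : 0 ≤ a * b) (hcd : 0 ≤ c * d) (hne : a * d - b * c ≠ 0)
    (h : ∀ s t : ℝ, 0 ≤ s * t → 0 ≤ (s * a + t * c) * (s * b + t * d)) :
    0 ≤ a * d ∧ 0 ≤ b * c ∧ 0 ≤ a * c ∧ 0 ≤ b * d := by
  have key : ¬ (0 ≤ a ∧ 0 ≤ b ∧ c ≤ 0 ∧ d ≤ 0) ∧ ¬ (a ≤ 0 ∧ b ≤ 0 ∧ 0 ≤ c ∧ 0 ≤ d) := by
    have main : ∀ a b c d : ℝ, 0 ≤ a → 0 ≤ b → 0 ≤ c → 0 ≤ d → a * d - b * c ≠ 0 →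
        (∀ s t : ℝ, 0 ≤ s * t → 0 ≤ (s * a - t * c) * (s * b - t * d)) → False := by
      intro a b c d ha hb hc hd hne h
      -- choose s, t between the two zeros
      have h1 := h (c + d) (a + b) (by positivity)
      have h2 : ((c + d) * a - (a + b) * c) * ((c + d) * b - (a + b) * d) =
          -(a * d - b * c) ^ 2 := by ring
      rw [h2] at h1
      have : 0 < (a * d - b * c) ^ 2 := by positivity
      linarith
    constructor
    · rintro ⟨h1, h2, h3, h4⟩
      refine main a b (-c) (-d) h1 h2 (by linarith) (by linarith) ?_ ?_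
      · intro h5
        apply hne
        linarith
      · intro s t hst
        have := h s t hst
        simpa using this
    · rintro ⟨h1, h2, h3, h4⟩
      refine main (-a) (-b) c d (by linarith) (by linarith) h3 h4 ?_ ?_
      · intro h5
        apply hne
        linarith
      · intro s t hst
        have := h s t hst
        have h6 : (s * -a - t * c) * (s * -b - t * d) = (s * a + t * c) * (s * b + t * d) := by
          ring
        rw [h6]
        exact this
  have hA : (0 ≤ a ∧ 0 ≤ b) ∨ (a ≤ 0 ∧ b ≤ 0) := by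
    rcases mul_nonneg_iff.1 hab with h | h
    · exact Or.inl h
    · exact Or.inr h
  have hC : (0 ≤ c ∧ 0 ≤ d) ∨ (c ≤ 0 ∧ d ≤ 0) := by
    rcases mul_nonneg_iff.1 hcd with h | h
    · exact Or.inl h
    · exact Or.inr h
  rcases hA with ⟨h1, h2⟩ | ⟨h1, h2⟩ <;> rcases hC with ⟨h3, h4⟩ | ⟨h3, h4⟩
  · exact ⟨mul_nonneg h1 h4, mul_nonneg h2 h3, mul_nonneg h1 h3, mul_nonneg h2 h4⟩
  · exact absurd ⟨h1, h2, h3, h4⟩ key.1
  · exact absurd ⟨h1, h2, h3, h4⟩ key.2
  · exact ⟨mul_nonneg_of_nonpos_of_nonpos h1 h4, mul_nonneg_of_nonpos_of_nonpos h2 h3,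
      mul_nonneg_of_nonpos_of_nonpos h1 h3, mul_nonneg_of_nonpos_of_nonpos h2 h4⟩

/-- The basic inequality. -/
lemma coef_le {a b c d p q : ℝ} (h1 : 0 ≤ a * d) (h2 : 0 ≤ b * c) (h3 : 0 ≤ a * c)
    (h4 : 0 ≤ b * d) : p * q * |a * d - b * c| ≤ (a * p + b * q) * (c * p + d * q) := by
  have e : (a * p + b * q) * (c * p + d * q) =
      a * c * p ^ 2 + b * d * q ^ 2 + (a * d + b * c) * (p * q) := by ring
  rw [e]
  rcases le_total 0 (p * q) with hpq | hpq
  · have h5 : |a * d - b * c| ≤ a * d + b * c := by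
      rw [abs_le]; constructor <;> linarith
    have h6 : 0 ≤ a * c * p ^ 2 := mul_nonneg h3 (sq_nonneg _)
    have h7 : 0 ≤ b * d * q ^ 2 := mul_nonneg h4 (sq_nonneg _)
    nlinarith
  · -- a c p² + b d q² ≥ 2 |p q| min (a d) (b c)
    set u := a * d with hu
    set w := b * c with hw
    have h5 : (a * c * p ^ 2) * (b * d * q ^ 2) = u * w * (p * q) ^ 2 := by rw [hu, hw]; ring
    have h6 : 0 ≤ a * c * p ^ 2 := mul_nonneg h3 (sq_nonneg _)
    have h7 : 0 ≤ b * d * q ^ 2 := mul_nonneg h4 (sq_nonneg _)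
    set E := a * c * p ^ 2 with hE
    set F := b * d * q ^ 2 with hF
    set r := -(p * q) with hr
    have hr0 : 0 ≤ r := by rw [hr]; linarith
    have hpqr : p * q = -r := by rw [hr]; ring
    have h8 : E * F = u * w * r ^ 2 := by rw [h5, hr]; ring
    rw [hpqr]
    -- goal : -r * |u - w| ≤ E + F + (u + w) * -r
    suffices h9 : r * (u + w - |u - w|) ≤ E + F by nlinarith
    have h10 : (E + F) ^ 2 ≥ 4 * (u * w * r ^ 2) := by rw [← h8]; nlinarith [sq_nonneg (E - F)]
    rcases le_total u w with huw | huw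
    · have h11 : |u - w| = w - u := by rw [abs_of_nonpos (by linarith)]; ring
      rw [h11]
      have h12 : (r * (u + w - (w - u))) ^ 2 ≤ (E + F) ^ 2 := by
        have h13 : (r * (u + w - (w - u))) ^ 2 = 4 * (u * u * r ^ 2) := by ring
        rw [h13]
        have h14 : u * u * r ^ 2 ≤ u * w * r ^ 2 := by
          apply mul_le_mul_of_nonneg_right _ (sq_nonneg _)
          exact mul_le_mul_of_nonneg_left huw h1
        linarith
      exact le_trans (le_abs_self _) (abs_le_of_sq_le_sq h12 (by linarith))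
    · have h11 : |u - w| = u - w := by rw [abs_of_nonneg (by linarith)]
      rw [h11]
      have h12 : (r * (u + w - (u - w))) ^ 2 ≤ (E + F) ^ 2 := by
        have h13 : (r * (u + w - (u - w))) ^ 2 = 4 * (w * w * r ^ 2) := by ring
        rw [h13]
        have h14 : w * w * r ^ 2 ≤ u * w * r ^ 2 := by
          apply mul_le_mul_of_nonneg_right _ (sq_nonneg _)
          exact mul_le_mul_of_nonneg_right huw h2
        linarith
      exact le_trans (le_abs_self _) (abs_le_of_sq_le_sq h12 (by linarith))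

/-- The strict inequality. -/
lemma coef_lt {a b c d p q : ℝ} (h1 : 0 < a * d) (h2 : 0 < b * c) (h3 : 0 < a * c)
    (h4 : 0 < b * d) (hne : a * d - b * c ≠ 0) (hpq0 : p ≠ 0 ∨ q ≠ 0) :
    p * q * |a * d - b * c| < (a * p + b * q) * (c * p + d * q) := by
  have e : (a * p + b * q) * (c * p + d * q) =
      a * c * p ^ 2 + b * d * q ^ 2 + (a * d + b * c) * (p * q) := by ring
  rw [e]
  have h6 : 0 ≤ a * c * p ^ 2 := mul_nonneg h3.le (sq_nonneg _)
  have h7 : 0 ≤ b * d * q ^ 2 := mul_nonneg h4.le (sq_nonneg _)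
  have hsum : 0 < a * c * p ^ 2 + b * d * q ^ 2 := by
    rcases hpq0 with h | h
    · have : 0 < a * c * p ^ 2 := by positivity
      linarith
    · have : 0 < b * d * q ^ 2 := by positivity
      linarith
  rcases le_or_gt 0 (p * q) with hpq | hpq
  · have h5 : |a * d - b * c| ≤ a * d + b * c := by
      rw [abs_le]; constructor <;> linarith
    nlinarith
  · set u := a * d with hu
    set w := b * c with hw
    have h5 : (a * c * p ^ 2) * (b * d * q ^ 2) = u * w * (p * q) ^ 2 := by rw [hu, hw]; ring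
    set E := a * c * p ^ 2 with hE
    set F := b * d * q ^ 2 with hF
    set r := -(p * q) with hr
    have hr0 : 0 < r := by rw [hr]; linarith
    have hpqr : p * q = -r := by rw [hr]; ring
    have h8 : E * F = u * w * r ^ 2 := by rw [h5, hr]; ring
    rw [hpqr]
    suffices h9 : r * (u + w - |u - w|) < E + F by nlinarith
    have h10 : (E + F) ^ 2 ≥ 4 * (u * w * r ^ 2) := by rw [← h8]; nlinarith [sq_nonneg (E - F)]
    have hr2 : 0 < r ^ 2 := by positivity
    rcases le_total u w with huw | huw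
    · have huw' : u < w := lt_of_le_of_ne huw fun h => hne (by rw [h]; ring)
      have h11 : |u - w| = w - u := by rw [abs_of_nonpos (by linarith)]; ring
      rw [h11]
      have h12 : (r * (u + w - (w - u))) ^ 2 < (E + F) ^ 2 := by
        have h13 : (r * (u + w - (w - u))) ^ 2 = 4 * (u * u * r ^ 2) := by ring
        rw [h13]
        have h14 : u * u * r ^ 2 < u * w * r ^ 2 := by
          apply mul_lt_mul_of_pos_right _ hr2
          exact mul_lt_mul_of_pos_left huw' h1
        linarith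
      exact lt_of_le_of_lt (le_abs_self _) (abs_lt_of_sq_lt_sq h12 (by linarith))
    · have huw' : w < u := lt_of_le_of_ne huw fun h => hne (by rw [h]; ring)
      have h11 : |u - w| = u - w := by rw [abs_of_nonneg (by linarith)]
      rw [h11]
      have h12 : (r * (u + w - (u - w))) ^ 2 < (E + F) ^ 2 := by
        have h13 : (r * (u + w - (u - w))) ^ 2 = 4 * (w * w * r ^ 2) := by ring
        rw [h13]
        have h14 : w * w * r ^ 2 < u * w * r ^ 2 := by
          apply mul_lt_mul_of_pos_right _ hr2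
          exact mul_lt_mul_of_pos_right huw' h2
        linarith
      exact lt_of_le_of_lt (le_abs_self _) (abs_lt_of_sq_lt_sq h12 (by linarith))

/-- Wedge product. -/
def wd (v w : ℝ × ℝ) : ℝ := v.1 * w.2 - v.2 * w.1

lemma wd_of_cone {x y v : ℝ × ℝ} (h : v ∈ cone x y) : 0 ≤ wd v y * wd x v := by
  obtain ⟨a, b, hab, rfl⟩ := h
  have e : wd (a • x + b • y) y * wd x (a • x + b • y) = a * b * wd x y ^ 2 := by
    simp only [wd, Prod.fst_add, Prod.snd_add, Prod.smul_fst, Prod.smul_snd, smul_eq_mul]; ring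
  rw [e]
  exact mul_nonneg hab (sq_nonneg _)

lemma wd_of_interior {x y v : ℝ × ℝ} (hxy : wd x y ≠ 0) (hv : v ≠ 0)
    (h : v ∈ interior (cone x y)) : 0 < wd v y * wd x v := by
  have h0 := wd_of_cone (interior_subset h)
  rcases h0.lt_or_eq with h1 | h1
  · exact h1
  exfalso
  have near : ∀ u : ℝ × ℝ, ∃ δ > 0, ∀ ε : ℝ, |ε| < δ →
      0 ≤ wd (v + ε • u) y * wd x (v + ε • u) := by
    intro u
    have h2 : Tendsto (fun ε : ℝ => v + ε • u) (𝓝 0) (𝓝 v) := by
      have : Continuous (fun ε : ℝ => v + ε • u) := by fun_prop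
      have h3 := this.tendsto 0
      simpa using h3
    have h3 : ∀ᶠ ε in 𝓝 (0 : ℝ), v + ε • u ∈ cone x y :=
      h2.eventually (mem_interior_iff_mem_nhds.1 h)
    rw [Metric.eventually_nhds_iff] at h3
    obtain ⟨δ, hδ, h4⟩ := h3
    refine ⟨δ, hδ, fun ε hε => wd_of_cone (h4 ?_)⟩
    simpa [Real.dist_eq] using hε
  have hv0 : wd v y = 0 → wd x v = 0 → False := by
    intro h2 h3
    apply hv
    simp only [wd] at h2 h3 hxy
    have e1 : v.1 * (x.1 * y.2 - x.2 * y.1) = 0 := by linear_combination x.1 * h2 + y.1 * h3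
    have e2 : v.2 * (x.1 * y.2 - x.2 * y.1) = 0 := by linear_combination x.2 * h2 + y.2 * h3
    exact Prod.ext ((mul_eq_zero.1 e1).resolve_right hxy) ((mul_eq_zero.1 e2).resolve_right hxy)
  rcases mul_eq_zero.1 h1.symm with h2 | h2
  · obtain ⟨δ, hδ, h3⟩ := near x
    have e : ∀ ε : ℝ, wd (v + ε • x) y * wd x (v + ε • x) = ε * (wd x y * wd x v) := by
      intro ε
      have e1 : wd (v + ε • x) y = wd v y + ε * wd x y := by
        simp only [wd, Prod.fst_add, Prod.snd_add, Prod.smul_fst, Prod.smul_snd, smul_eq_mul]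
        ring
      have e2 : wd x (v + ε • x) = wd x v := by
        simp only [wd, Prod.fst_add, Prod.snd_add, Prod.smul_fst, Prod.smul_snd, smul_eq_mul]
        ring
      rw [e1, e2, h2]; ring
    have h4 := h3 (δ / 2) (by rw [abs_of_pos (by linarith)]; linarith)
    have h5 := h3 (-(δ / 2)) (by rw [abs_neg, abs_of_pos (by linarith)]; linarith)
    rw [e] at h4 h5
    have h6 : wd x y * wd x v = 0 := by
      have h7 : 0 < δ / 2 := by linarith
      have h8 : 0 ≤ wd x y * wd x v := by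
        by_contra hcon
        push Not at hcon
        nlinarith
      nlinarith
    exact hv0 h2 ((mul_eq_zero.1 h6).resolve_left hxy)
  · obtain ⟨δ, hδ, h3⟩ := near y
    have e : ∀ ε : ℝ, wd (v + ε • y) y * wd x (v + ε • y) = ε * (wd x y * wd v y) := by
      intro ε
      have e1 : wd (v + ε • y) y = wd v y := by
        simp only [wd, Prod.fst_add, Prod.snd_add, Prod.smul_fst, Prod.smul_snd, smul_eq_mul]
        ring
      have e2 : wd x (v + ε • y) = wd x v + ε * wd x y := by
        simp only [wd, Prod.fst_add, Prod.snd_add, Prod.smul_fst, Prod.smul_snd, smul_eq_mul]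
        ring
      rw [e1, e2, h2]; ring
    have h4 := h3 (δ / 2) (by rw [abs_of_pos (by linarith)]; linarith)
    have h5 := h3 (-(δ / 2)) (by rw [abs_neg, abs_of_pos (by linarith)]; linarith)
    rw [e] at h4 h5
    have h6 : wd x y * wd v y = 0 := by
      have h7 : 0 < δ / 2 := by linarith
      have h8 : 0 ≤ wd x y * wd v y := by
        by_contra hcon
        push Not at hcon
        nlinarith
      nlinarith
    exact hv0 ((mul_eq_zero.1 h6).resolve_left hxy) h2

/-- Inclusion of cones, in product form. -/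
lemma incl_le {X Y x y : ℝ × ℝ} (hXY : wd X Y ≠ 0) (hxy : wd x y ≠ 0)
    (h : ∀ v ∈ cone X Y, v ∈ cone x y) :
    x.2 * y.2 * |wd X Y| ≤ X.2 * Y.2 * |wd x y| ∧
      ((∀ v ∈ cone X Y, v ≠ 0 → v ∈ interior (cone x y)) →
        x.2 * y.2 * |wd X Y| < X.2 * Y.2 * |wd x y|) := by
  have hX : X ∈ cone X Y := ⟨1, 0, by norm_num, by simp⟩
  have hY : Y ∈ cone X Y := ⟨0, 1, by norm_num, by simp⟩
  have hD : wd X y * wd x Y - wd x X * wd Y y = wd x y * wd X Y := by simp only [wd]; ring
  have hne : wd X y * wd x Y - wd x X * wd Y y ≠ 0 := by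
    rw [hD]; exact mul_ne_zero hxy hXY
  have e1 : wd X y * x.2 + wd x X * y.2 = wd x y * X.2 := by simp only [wd]; ring
  have e2 : wd Y y * x.2 + wd x Y * y.2 = wd x y * Y.2 := by simp only [wd]; ring
  obtain ⟨c1, c2, c3, c4⟩ := coef_of_cone (a := wd X y) (b := wd x X) (c := wd Y y) (d := wd x Y)
    (wd_of_cone (h X hX)) (wd_of_cone (h Y hY)) hne (by
      intro s t hst
      have h1 := wd_of_cone (h (s • X + t • Y) ⟨s, t, hst, rfl⟩)
      have h2 : wd (s • X + t • Y) y * wd x (s • X + t • Y) =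
          (s * wd X y + t * wd Y y) * (s * wd x X + t * wd x Y) := by
        simp only [wd, Prod.fst_add, Prod.snd_add, Prod.smul_fst, Prod.smul_snd, smul_eq_mul]
        ring
      rwa [h2] at h1)
  have hpos : 0 < |wd x y| := abs_pos.2 hxy
  have hsq : wd x y * X.2 * (wd x y * Y.2) = |wd x y| * (X.2 * Y.2 * |wd x y|) := by
    have : |wd x y| * |wd x y| = wd x y * wd x y := abs_mul_abs_self _
    linear_combination (-(X.2 * Y.2)) * this
  refine ⟨?_, ?_⟩
  · have h1 := coef_le (p := x.2) (q := y.2) c1 c2 c3 c4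
    rw [hD, e1, e2, abs_mul, hsq] at h1
    have h2 : |wd x y| * (x.2 * y.2 * |wd X Y|) ≤ |wd x y| * (X.2 * Y.2 * |wd x y|) := by
      linarith
    exact le_of_mul_le_mul_left h2 hpos
  · intro hs
    have hX0 : X ≠ 0 := by
      rintro rfl; apply hXY; simp [wd]
    have hY0 : Y ≠ 0 := by
      rintro rfl; apply hXY; simp [wd]
    have i1 := wd_of_interior hxy hX0 (hs X hX hX0)
    have i2 := wd_of_interior hxy hY0 (hs Y hY hY0)
    have n1 : wd X y ≠ 0 := left_ne_zero_of_mul i1.ne'
    have n2 : wd x X ≠ 0 := right_ne_zero_of_mul i1.ne'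
    have n3 : wd Y y ≠ 0 := left_ne_zero_of_mul i2.ne'
    have n4 : wd x Y ≠ 0 := right_ne_zero_of_mul i2.ne'
    have hpq : x.2 ≠ 0 ∨ y.2 ≠ 0 := by
      by_contra hcon
      push Not at hcon
      apply hxy
      simp [wd, hcon.1, hcon.2]
    have h1 := coef_lt (p := x.2) (q := y.2) (lt_of_le_of_ne c1 (mul_ne_zero n1 n4).symm)
      (lt_of_le_of_ne c2 (mul_ne_zero n2 n3).symm) (lt_of_le_of_ne c3 (mul_ne_zero n1 n3).symm)
      (lt_of_le_of_ne c4 (mul_ne_zero n2 n4).symm) hne hpq
    rw [hD, e1, e2, abs_mul, hsq] at h1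
    have h2 : |wd x y| * (x.2 * y.2 * |wd X Y|) < |wd x y| * (X.2 * Y.2 * |wd x y|) := by
      linarith
    exact lt_of_mul_lt_mul_left h2 hpos.le

/-- Monotonicity of the number of a cone under maps which change the measure by `S / S'` and
preserve the second coordinate up to the sign. -/
lemma cnum_le {S S' : ℝ} (hS : 0 < S) (hS' : 0 < S') {x y x' y' : ℝ × ℝ}
    (A : ℝ × ℝ →L[ℝ] ℝ × ℝ) (hxy : wd x y ≠ 0) (hxy' : wd x' y' ≠ 0)
    (hA2 : (A x).2 * (A y).2 = x.2 * y.2) (hAw : S' * |wd (A x) (A y)| = S * |wd x y|)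
    (h : ∀ v ∈ cone x y, A v ∈ cone x' y') :
    cnum S x y ≤ cnum S' x' y' ∧
      ((∀ v ∈ cone x y, v ≠ 0 → A v ∈ interior (cone x' y')) →
        cnum S x y < cnum S' x' y') := by
  have hw : 0 < |wd x y| := abs_pos.2 hxy
  have hw' : 0 < |wd x' y'| := abs_pos.2 hxy'
  have hAw0 : 0 < |wd (A x) (A y)| := by
    have : 0 < S' * |wd (A x) (A y)| := by rw [hAw]; positivity
    exact (mul_pos_iff_of_pos_left hS').1 this
  have hAne : wd (A x) (A y) ≠ 0 := abs_pos.1 hAw0
  have hc : ∀ v ∈ cone (A x) (A y), ∃ u ∈ cone x y, A u = v := by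
    rintro v ⟨a, b, hab, rfl⟩
    exact ⟨a • x + b • y, ⟨a, b, hab, rfl⟩, by simp⟩
  have h1 := incl_le hAne hxy' (fun v hv => by
    obtain ⟨u, hu, rfl⟩ := hc v hv
    exact h u hu)
  have e1 : cnum S x y = -(x.2 * y.2) / (S' * |wd (A x) (A y)|) := by
    rw [hAw]; rfl
  have e2 : cnum S' x' y' = -(x'.2 * y'.2) / (S' * |wd x' y'|) := rfl
  rw [e1, e2]
  constructor
  · rw [div_le_div_iff₀ (by positivity) (by positivity)]
    have := h1.1
    rw [hA2] at this
    nlinarith
  · intro hs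
    rw [div_lt_div_iff₀ (by positivity) (by positivity)]
    have := h1.2 (fun v hv hv0 => by
      obtain ⟨u, hu, rfl⟩ := hc v hv
      refine hs u hu ?_
      rintro rfl
      exact hv0 (by simp))
    rw [hA2] at this
    nlinarith

end Pool.Agent.Lib.MP_19d7db_an
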