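import Pool.Agent.Lib.MP_19d7db_an_C.Cone

/-!
# Semi-dispersive simple polygons: hyperbolic implies that almost all orbits hit an arc
-/

open Complex Set Filter Topology MeasureTheory

namespace Pool.Agent.Lib.MP_19d7db_an

variable {n : ℕ}

namespace SG

variable {Y : Dom n} {C η : ℝ} (hg : SG Y C η)

include hg

lemma hit_of_isDeriv {z z' : ZMod n × ℝ × ℝ} {A : ℝ × ℝ →L[ℝ] ℝ × ℝ}
    (h : Y.IsDeriv z z' A) : Y.Hit z z' := by
  obtain ⟨F, hF0, hFd, hF⟩ := h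
  have := hF.self_of_nhds
  rwa [hF0] at this

/-- The derivative of the billiard map between two neutral sides. -/
lemma neutral_deriv [NeZero n] {z z' : ZMod n × ℝ × ℝ} {A : ℝ × ℝ →L[ℝ] ℝ × ℝ}
    (h : Y.IsDeriv z z' A) (hz : z.1 ∉ Y.D) (hz' : z'.1 ∉ Y.D) (u v : ℝ × ℝ) :
    (A u).2 * (A v).2 = u.2 * v.2 ∧
      Real.sin z'.2.2 * |wd (A u) (A v)| = Real.sin z.2.2 * |wd u v| := by
  obtain ⟨t, hR⟩ := hg.rel_of_isDeriv h
  have k1 : Y.κ z.1 = 0 := by rw [Table.κ, if_neg hz]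
  have k2 : Y.κ z'.1 = 0 := by rw [Table.κ, if_neg hz']
  have hS := hR.hS
  have hS' := hR.hS'
  have a1 := hR.h1 u
  have a2 := hR.h2 u
  have b1 := hR.h1 v
  have b2 := hR.h2 v
  rw [k1] at a1 b1
  rw [k1, k2] at a2 b2
  simp only [zero_mul, sub_zero, neg_zero, zero_sub] at a1 a2 b1 b2
  refine ⟨by rw [a2, b2]; ring, ?_⟩
  rw [← abs_of_pos hS', ← abs_of_pos hS, ← abs_mul, ← abs_mul]
  congr 1
  simp only [wd]
  rw [a2, b2]
  linear_combination (-v.2) * a1 + u.2 * b1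

omit hg in
lemma zero_mem_cone (x y : ℝ × ℝ) : (0 : ℝ × ℝ) ∈ cone x y := ⟨0, 0, by norm_num, by simp⟩

/-- On a hyperbolic table almost every orbit leaves the neutral sides. -/
theorem null_of_hyperbolic [NeZero n] (hyp : Y.Hyperbolic) (i : ZMod n) :
    volume (Y.S i) = 0 := by
  obtain ⟨x, y, hx, hy, hxy, hae⟩ := hyp
  set G : ZMod n → ℝ × ℝ → ℝ := fun i w =>
    Real.arctan (cnum (Real.sin w.2) (x (i, w)) (y (i, w))) with hG
  have hGm : ∀ i, Measurable (G i) := by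
    intro i
    apply Real.measurable_arctan.comp
    exact ((hx i).snd.mul (hy i).snd).neg.div
      ((Real.measurable_sin.comp measurable_snd).mul
        ((((hx i).fst.mul (hy i).snd).sub ((hx i).snd.mul (hy i).fst)).abs))
  have hGb : ∀ i, i ∉ Y.D → ∀ w ∈ Y.Phase i, |G i w| ≤ Real.pi / 2 := by
    intro i _ w _
    rw [abs_le]
    exact ⟨(Real.neg_pi_div_two_lt_arctan _).le, (Real.arctan_lt_pi_div_two _).le⟩
  have hle : ∀ i j, ∀ᵐ w : ℝ × ℝ, w ∈ Y.S i → w ∈ Y.U i j → G i w ≤ G j (Y.Ψ i j w) := by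
    intro i j
    filter_upwards [hae i] with w h hwS hwU
    obtain ⟨-, h2, -⟩ := h hwS.1
    have hh := Ψ_spec hwU
    obtain ⟨A, hA⟩ := hg.exists_isDeriv hh
    have hi : i ∉ Y.D := S_neutral hwS
    have hj : j ∉ Y.D := S_neutral (hg.Ψ_mem hwS hwU)
    obtain ⟨e1, e2⟩ := hg.neutral_deriv hA hi hj (x (i, w)) (y (i, w))
    have h3 := (cnum_le (hg.sin_pos_of_phase hh.1) (hg.sin_pos_of_phase hh.2.1) A
      (hxy (i, w)) (hxy (j, Y.Ψ i j w)) e1 e2 (h2 _ A hA)).1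
    exact Real.arctan_strictMono.monotone h3
  have heq := hg.recur hGm hGb hle
  -- iterates
  have hit : ∀ (k : ℕ) (i : ZMod n), ∀ᵐ w : ℝ × ℝ, w ∈ Y.S i →
      ∀ z' A, Y.Iter k (i, w) z' A → z'.1 ∉ Y.D ∧ 0 < Real.sin z'.2.2 ∧
        (∀ u v : ℝ × ℝ, (A u).2 * (A v).2 = u.2 * v.2 ∧
          Real.sin z'.2.2 * |wd (A u) (A v)| = Real.sin w.2 * |wd u v|) ∧
        G z'.1 z'.2 = G i w := by
    intro k
    induction k with
    | zero =>
      intro i
      refine Eventually.of_forall fun w hw z' A hA => ?_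
      obtain ⟨rfl, rfl⟩ := hA
      refine ⟨S_neutral hw, hg.sin_pos_of_phase hw.1, fun u v => ⟨rfl, rfl⟩, rfl⟩
    | succ k ih =>
      intro i
      have h2 : ∀ j, ∀ᵐ w : ℝ × ℝ, ¬ ∃ u ∈ {u | ¬ (u ∈ Y.S j →
          ∀ z' A, Y.Iter k (j, u) z' A → z'.1 ∉ Y.D ∧ 0 < Real.sin z'.2.2 ∧
            (∀ a b : ℝ × ℝ, (A a).2 * (A b).2 = a.2 * b.2 ∧
              Real.sin z'.2.2 * |wd (A a) (A b)| = Real.sin u.2 * |wd a b|) ∧
            G z'.1 z'.2 = G j u)}, Y.Hit (i, w) (j, u) := by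
        intro j
        have h3 := hg.null_preimage i j (ae_iff.1 (ih j))
        rw [ae_iff]
        simpa only [not_not] using h3
      have h4 : ∀ j, ∀ᵐ w : ℝ × ℝ, w ∈ Y.S i → w ∈ Y.U i j → G i w = G j (Y.Ψ i j w) :=
        fun j => heq i j
      rw [← ae_all_iff] at h2 h4
      filter_upwards [h2, h4] with w h2 h4 hw z' A hA
      obtain ⟨⟨j, u⟩, B, C', hB, hC', rfl⟩ := hA
      have hh := hg.hit_of_isDeriv hB
      have hU : w ∈ Y.U i j := ⟨u, hh⟩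
      have hu : Y.Ψ i j w = u := hg.Ψ_eq hh
      have hS : u ∈ Y.S j := by rw [← hu]; exact hg.Ψ_mem hw hU
      have h5 : u ∈ Y.S j →
          ∀ z' A, Y.Iter k (j, u) z' A → z'.1 ∉ Y.D ∧ 0 < Real.sin z'.2.2 ∧
            (∀ a b : ℝ × ℝ, (A a).2 * (A b).2 = a.2 * b.2 ∧
              Real.sin z'.2.2 * |wd (A a) (A b)| = Real.sin u.2 * |wd a b|) ∧
            G z'.1 z'.2 = G j u := by
        by_contra hcon
        exact h2 j ⟨u, hcon, hh⟩
      obtain ⟨c1, c0, c2, c3⟩ := h5 hS z' C' hC'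
      refine ⟨c1, c0, fun a b => ?_, ?_⟩
      · obtain ⟨d1, d2⟩ := hg.neutral_deriv hB (S_neutral hw) (S_neutral hS) a b
        obtain ⟨d3, d4⟩ := c2 (B a) (B b)
        simp only [ContinuousLinearMap.comp_apply]
        simp only at d2
        exact ⟨d3.trans d1, d4.trans d2⟩
      · rw [c3, h4 j hw hU, hu]
  have hfin : ∀ᵐ w : ℝ × ℝ, w ∉ Y.S i := by
    have h1 := ae_all_iff.2 fun k => hit k i
    filter_upwards [h1, hae i] with w h1 h2 hw
    obtain ⟨-, -, k, z', A, hA, hs⟩ := h2 hw.1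
    obtain ⟨c1, c0, c2, c3⟩ := h1 k hw z' A hA
    obtain ⟨e1, e2⟩ := c2 (x (i, w)) (y (i, w))
    have h3 := (cnum_le (hg.sin_pos_of_phase hw.1) c0 A
      (hxy (i, w)) (hxy z') e1 e2 (fun v hv => by
        by_cases hv0 : v = 0
        · rw [hv0, map_zero]; exact zero_mem_cone _ _
        · exact interior_subset (hs v hv hv0))).2 hs
    have h4 := Real.arctan_strictMono h3
    simp only [hG] at c3
    rw [Prod.mk.eta] at c3
    linarith
  exact measure_eq_zero_iff_ae_notMem.2 hfin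

/-- The criterion in terms of the sets `S i`. -/
theorem hyperbolic_iff_null [NeZero n] :
    Y.Hyperbolic ↔ ∀ i, volume (Y.S i) = 0 :=
  ⟨fun h i => hg.null_of_hyperbolic h i, fun h => hg.hyperbolic_of_ae h⟩

omit hg in
lemma hits_of_not_nc : ∀ (N : ℕ) (z : ZMod n × ℝ × ℝ), Y.Reach N z → ¬ Y.NC N z →
    ∃ z', Relation.ReflTransGen Y.Hit z z' ∧ z'.1 ∈ Y.D := by
  intro N
  induction N with
  | zero =>
    intro z _ hn
    refine ⟨z, Relation.ReflTransGen.refl, ?_⟩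
    by_contra hcon
    exact hn ⟨[], rfl, hcon⟩
  | succ N ih =>
    intro z hr hn
    by_cases hz : z.1 ∈ Y.D
    · exact ⟨z, Relation.ReflTransGen.refl, hz⟩
    obtain ⟨z1, hh, hr'⟩ := hr
    have hn' : ¬ Y.NC N z1 := by
      rintro ⟨L, hL, hp⟩
      exact hn ⟨z1.1 :: L, by simp [hL], hz, z1.2, hh, hp⟩
    obtain ⟨z', h1, h2⟩ := ih z1 hr' hn'
    exact ⟨z', Relation.ReflTransGen.head hh h1, h2⟩

lemma stay {z z' : ZMod n × ℝ × ℝ} (h : Relation.ReflTransGen Y.Hit z z')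
    (hz : z.2 ∈ Y.S z.1) : z'.2 ∈ Y.S z'.1 := by
  induction h with
  | refl => exact hz
  | tail _ hh ih =>
    rename_i b c _
    obtain ⟨i, w⟩ := b
    obtain ⟨j, u⟩ := c
    have hU : w ∈ Y.U i j := ⟨u, hh⟩
    have := hg.Ψ_mem ih hU
    rwa [hg.Ψ_eq hh] at this

/-- The criterion: the table is hyperbolic if and only if almost every orbit hits a dispersive
component. -/
theorem hyperbolic_iff_hits [NeZero n] :
    Y.Hyperbolic ↔ ∀ i, ∀ᵐ w : ℝ × ℝ, w ∈ Y.Phase i →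
      ∃ z', Relation.ReflTransGen Y.Hit (i, w) z' ∧ z'.1 ∈ Y.D := by
  rw [hg.hyperbolic_iff_null]
  constructor
  · intro h i
    have h1 := ae_all_iff.2 fun k => hg.ae_reach k i
    have h2 : ∀ᵐ w : ℝ × ℝ, w ∉ Y.S i := measure_eq_zero_iff_ae_notMem.1 (h i)
    filter_upwards [h1, h2] with w h1 h2 hw
    have h3 : ∃ N, ¬ Y.NC N (i, w) := by
      by_contra hcon
      push Not at hcon
      exact h2 ⟨hw, hcon⟩
    obtain ⟨N, hN⟩ := h3
    exact hits_of_not_nc N (i, w) (h1 N hw) hN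
  · intro h i
    have h1 : ∀ᵐ w : ℝ × ℝ, w ∉ Y.S i := by
      filter_upwards [h i] with w h1 hw
      obtain ⟨z', h2, h3⟩ := h1 hw.1
      exact S_neutral (hg.stay h2 hw) h3
    exact measure_eq_zero_iff_ae_notMem.2 h1

end SG

end Pool.Agent.Lib.MP_19d7db_an
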