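import Pool.Agent.Lib.MP_19d7db_an_C.Crit
import Pool.Agent.Lib.MP_19d7db_an_S.Exists

/-!
# Semi-dispersive simple polygons: monotonicity in the arcs

The hyperbolicity is inherited when further sides are replaced by arcs and when the radii get
smaller.
-/

open Complex Set Filter Topology MeasureTheory

namespace Pool.Agent.Lib.MP_19d7db_an

variable {n : ℕ}

lemma norm_c_sq (p : ZMod n → ℂ) (D : Set (ZMod n)) (ρ : ZMod n → ℝ) (k : ZMod n) (x : ℂ)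
    (hne : p k ≠ p (k + 1)) (h1 : ‖p (k + 1) - p k‖ ≤ 2 * ρ k) :
    ‖x - (Table.mk p D ρ).c k‖ ^ 2 - ρ k ^ 2 =
      ‖x - (p k + p (k + 1)) / 2‖ ^ 2 - (‖p (k + 1) - p k‖ / 2) ^ 2 +
        2 * (cr (p (k + 1) - p k) (x - p k) / ‖p (k + 1) - p k‖) *
          √(ρ k ^ 2 - (‖p (k + 1) - p k‖ / 2) ^ 2) := by
  set l := ‖p (k + 1) - p k‖ with hl
  have hl0 : 0 < l := by rw [hl]; exact norm_pos_iff.2 (sub_ne_zero.2 hne.symm)
  have hll : l ^ 2 = (p (k + 1) - p k).re ^ 2 + (p (k + 1) - p k).im ^ 2 := by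
    rw [hl, Complex.sq_norm, Complex.normSq_apply]; ring
  set h := √(ρ k ^ 2 - (l / 2) ^ 2) with hh
  have hh2 : h ^ 2 = ρ k ^ 2 - (l / 2) ^ 2 := by
    rw [hh, Real.sq_sqrt]
    nlinarith
  have hc : (Table.mk p D ρ).c k =
      (p k + p (k + 1)) / 2 - I * ((p (k + 1) - p k) / l) * (h : ℝ) := rfl
  rw [hc]
  set e := p (k + 1) - p k with he
  have hM : (p k + p (k + 1)) / 2 = p k + e / 2 := by rw [he]; ring
  rw [hM]
  set X := x - p k with hX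
  have e1 : x - (p k + e / 2 - I * (e / l) * (h : ℝ)) = X - e / 2 + I * (e / l) * (h : ℝ) := by
    rw [hX]; ring
  have e2 : x - (p k + e / 2) = X - e / 2 := by rw [hX]; ring
  rw [e1, e2, Complex.sq_norm, Complex.sq_norm, Complex.normSq_apply, Complex.normSq_apply]
  have r1 : (I * (e / l) * (h : ℝ)).re = -(e.im / l) * h := by
    simp [Complex.mul_re, Complex.mul_im, Complex.div_ofReal_re, Complex.div_ofReal_im]
  have r2 : (I * (e / l) * (h : ℝ)).im = (e.re / l) * h := by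
    simp [Complex.mul_re, Complex.mul_im, Complex.div_ofReal_re, Complex.div_ofReal_im]
  have r3 : (e / 2).re = e.re / 2 := by simp
  have r4 : (e / 2).im = e.im / 2 := by simp
  simp only [Complex.add_re, Complex.add_im, Complex.sub_re, Complex.sub_im, r1, r2, r3, r4, cr]
  have hl' : l ≠ 0 := hl0.ne'
  have hu : (e.im / l) ^ 2 + (e.re / l) ^ 2 = 1 := by
    rw [div_pow, div_pow, ← add_div, div_eq_one_iff_eq (pow_ne_zero 2 hl'), hll]; ring
  have hxx : (e.re * X.im - e.im * X.re) / l = e.re / l * X.im - e.im / l * X.re := by ring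
  rw [hxx]
  have hre : e.re = e.re / l * l := by field_simp
  have him : e.im = e.im / l * l := by field_simp
  generalize e.re / l = a at *
  generalize e.im / l = b at *
  rw [hre, him]
  linear_combination (h ^ 2) * hu + hh2

/-- Smaller radii give larger lenses. -/
lemma lens_sub {p : ZMod n → ℂ} {Ω : Set ℂ} {D D' : Set (ZMod n)} {ρ ρ' : ZMod n → ℝ}
    {k : ZMod n} (hne : p k ≠ p (k + 1)) (h1 : ‖p (k + 1) - p k‖ ≤ 2 * ρ' k)
    (h2 : ρ' k ≤ ρ k) :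
    (Dom.mk (Table.mk p D ρ) Ω).lens k ⊆ (Dom.mk (Table.mk p D' ρ') Ω).lens k := by
  rintro x ⟨hx1, hx2⟩
  refine ⟨hx1, ?_⟩
  have hx1' : 0 ≤ cr (p (k + 1) - p k) (x - p k) := hx1
  have hx2' : ‖x - (Table.mk p D ρ).c k‖ ≤ ρ k := hx2
  show ‖x - (Table.mk p D' ρ').c k‖ ≤ ρ' k
  have a1 := norm_c_sq p D ρ k x hne (by linarith)
  have a2 := norm_c_sq p D' ρ' k x hne h1
  have hl0 : 0 < ‖p (k + 1) - p k‖ := norm_pos_iff.2 (sub_ne_zero.2 hne.symm)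
  have hρ' : 0 < ρ' k := by linarith
  have h3 : ‖x - (Table.mk p D ρ).c k‖ ^ 2 ≤ ρ k ^ 2 := by
    have := norm_nonneg (x - (Table.mk p D ρ).c k)
    nlinarith
  have h4 : √(ρ' k ^ 2 - (‖p (k + 1) - p k‖ / 2) ^ 2) ≤
      √(ρ k ^ 2 - (‖p (k + 1) - p k‖ / 2) ^ 2) := by
    apply Real.sqrt_le_sqrt
    nlinarith
  have h5 : 0 ≤ cr (p (k + 1) - p k) (x - p k) / ‖p (k + 1) - p k‖ := by positivity
  have h6 := mul_le_mul_of_nonneg_left h4 h5
  have h7 : ‖x - (Table.mk p D' ρ').c k‖ ^ 2 ≤ ρ' k ^ 2 := by nlinarith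
  exact abs_le_of_sq_le_sq' h7 hρ'.le |>.2

section mono

variable {p : ZMod n → ℂ} {Ω : Set ℂ} {D D' : Set (ZMod n)} {ρ ρ' : ZMod n → ℝ}

lemma inside_mono (hne : ∀ k, p k ≠ p (k + 1)) (hD : D ⊆ D')
    (h1 : ∀ k ∈ D, ‖p (k + 1) - p k‖ ≤ 2 * ρ' k) (h2 : ∀ k ∈ D, ρ' k ≤ ρ k) {x : ℂ}
    (hx : (Dom.mk (Table.mk p D' ρ') Ω).inside x) : (Dom.mk (Table.mk p D ρ) Ω).inside x :=
  ⟨hx.1, fun k hk h => hx.2 k (hD hk) (lens_sub (hne k) (h1 k hk) (h2 k hk) h)⟩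

lemma hit_mono (hne : ∀ k, p k ≠ p (k + 1)) (hD : D ⊆ D')
    (h1 : ∀ k ∈ D, ‖p (k + 1) - p k‖ ≤ 2 * ρ' k) (h2 : ∀ k ∈ D, ρ' k ≤ ρ k)
    {z z' : ZMod n × ℝ × ℝ} (hz : z.1 ∉ D') (hz' : z'.1 ∉ D')
    (h : (Dom.mk (Table.mk p D' ρ') Ω).Hit z z') : (Dom.mk (Table.mk p D ρ) Ω).Hit z z' := by
  obtain ⟨i, w⟩ := z
  obtain ⟨j, w'⟩ := z'
  simp only at hz hz'
  have hi : i ∉ D := fun h => hz (hD h)
  have hj : j ∉ D := fun h => hz' (hD h)
  obtain ⟨ha, hb, t, ht, hpos, hdir, hin⟩ := h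
  have hP : ∀ m, m ∉ D' → (Table.mk p D' ρ').Phase m = (Table.mk p D ρ).Phase m := by
    intro m hm
    have hm' : m ∉ D := fun h => hm (hD h)
    simp only [Table.Phase, Table.len, hm, hm', if_false]
    rfl
  have hpo : ∀ m, m ∉ D' → ∀ s, (Table.mk p D' ρ').pos m s = (Table.mk p D ρ).pos m s := by
    intro m hm s
    have hm' : m ∉ D := fun h => hm (hD h)
    simp only [Table.pos, hm, hm', if_false]
    rfl
  have hta : ∀ m, m ∉ D' → ∀ s, (Table.mk p D' ρ').tan m s = (Table.mk p D ρ).tan m s := by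
    intro m hm s
    have hm' : m ∉ D := fun h => hm (hD h)
    simp only [Table.tan, Table.β, Table.κ, hm, hm', if_false]
    rfl
  have hd : (Table.mk p D' ρ').dir (i, w) = (Table.mk p D ρ).dir (i, w) := by
    simp only [Table.dir, hta i hz]
  have hd' : (Table.mk p D' ρ').dirIn (j, w') = (Table.mk p D ρ).dirIn (j, w') := by
    simp only [Table.dirIn, hta j hz']
  simp only at ha hb hpos hdir hin
  rw [hP i hz] at ha
  rw [hP j hz'] at hb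
  rw [hpo i hz, hpo j hz', hd] at hpos
  rw [hd, hd'] at hdir
  refine ⟨ha, hb, t, ht, hpos, hdir, fun u hu => ?_⟩
  have h3 := hin u hu
  rw [hpo i hz, hd] at h3
  exact inside_mono hne hD h1 h2 h3

lemma path_mono (hne : ∀ k, p k ≠ p (k + 1)) (hD : D ⊆ D')
    (h1 : ∀ k ∈ D, ‖p (k + 1) - p k‖ ≤ 2 * ρ' k) (h2 : ∀ k ∈ D, ρ' k ≤ ρ k) :
    ∀ (L : List (ZMod n)) (z : ZMod n × ℝ × ℝ), (Dom.mk (Table.mk p D' ρ') Ω).Path L z →
      (Dom.mk (Table.mk p D ρ) Ω).Path L z := by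
  intro L
  induction L with
  | nil => intro z h; exact fun h' => h (hD h')
  | cons j L ih =>
    rintro z ⟨hz, w', hh, hp⟩
    exact ⟨fun h' => hz (hD h'), w', hit_mono hne hD h1 h2 hz hp.neutral hh, ih _ hp⟩

lemma S_mono (hne : ∀ k, p k ≠ p (k + 1)) (hD : D ⊆ D')
    (h1 : ∀ k ∈ D, ‖p (k + 1) - p k‖ ≤ 2 * ρ' k) (h2 : ∀ k ∈ D, ρ' k ≤ ρ k) (i : ZMod n) :
    (Dom.mk (Table.mk p D' ρ') Ω).S i ⊆ (Dom.mk (Table.mk p D ρ) Ω).S i := by
  rintro w ⟨hw, hN⟩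
  have hi : i ∉ D' := by
    obtain ⟨L, hL, hp⟩ := hN 0
    exact hp.neutral
  have hi' : i ∉ D := fun h => hi (hD h)
  refine ⟨?_, fun N => ?_⟩
  · have : (Table.mk p D' ρ').Phase i = (Table.mk p D ρ).Phase i := by
      simp only [Table.Phase, Table.len, hi, hi', if_false]
      rfl
    simp only at hw ⊢
    rwa [this] at hw
  · obtain ⟨L, hL, hp⟩ := hN N
    exact ⟨L, hL, path_mono hne hD h1 h2 L _ hp⟩

end mono

/-- A bound for the radii which is good for all sets of dispersive sides. -/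
theorem exists_sg_all (hn : 3 ≤ n) (p : ZMod n → ℂ) (Ω : Set ℂ) (hdom : PolyDom p Ω) :
    ∃ R : ℝ, ∀ (D : Set (ZMod n)) (ρ : ZMod n → ℝ), (∀ k ∈ D, R ≤ ρ k) →
      ∃ C η, SG (Dom.mk (Table.mk p D ρ) Ω) C η := by
  have : NeZero n := ⟨by omega⟩
  choose f hf using fun D : Set (ZMod n) => exists_sg hn p Ω hdom D
  obtain ⟨R, hR⟩ := (Set.finite_range f).bddAbove
  exact ⟨R, fun D ρ hρ => hf D ρ fun k hk => (hR ⟨D, rfl⟩).trans (hρ k hk)⟩

end Pool.Agent.Lib.MP_19d7db_an
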