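import Pool.Agent.Lib.MP_19d7db_an_C.Mono

/-!
# Semi-dispersive simple polygons: parts of a table

The hyperbolicity is inherited by every smaller table whose neutral sides are parts of neutral
sides of the given table.
-/

open Complex Set Filter Topology MeasureTheory

namespace Pool.Agent.Lib.MP_19d7db_an

variable {n m : ℕ}

/-- `Z` is a part of the table `Y`: the interior of `Z` is contained in the interior of `Y` and
each neutral side of `Z` is contained in a neutral side of `Y` and has the same direction. -/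
structure Part (Z : Dom m) (Y : Dom n) : Prop where
  sub : ∀ x, Z.inside x → Y.inside x
  side : ∀ i, i ∉ Z.D → ∃ j, j ∉ Y.D ∧ ∃ a b : ℝ, 0 ≤ a ∧ a < b ∧ b ≤ 1 ∧
    Z.p i = Y.p j + a * (Y.p (j + 1) - Y.p j) ∧
    Z.p (i + 1) = Y.p j + b * (Y.p (j + 1) - Y.p j)

lemma Table.pos_neutral {T : Table n} {i : ZMod n} (hi : i ∉ T.D) (s : ℝ) :
    T.pos i s = T.p i + s * (T.e i / T.ℓ i) := by
  simp only [Table.pos, hi, if_false]

lemma Table.tan_neutral {T : Table n} {i : ZMod n} (hi : i ∉ T.D) (s : ℝ) :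
    T.tan i s = T.e i / T.ℓ i := by
  simp only [Table.tan, Table.β, Table.κ, hi, if_false, zero_mul, sub_zero, Complex.ofReal_zero,
    mul_zero, Complex.exp_zero, mul_one]

lemma Table.len_neutral {T : Table n} {i : ZMod n} (hi : i ∉ T.D) : T.len i = T.ℓ i := by
  simp only [Table.len, hi, if_false]

lemma Part.frame {Z : Dom m} {Y : Dom n} (h : Part Z Y) (hne : ∀ j, Y.p j ≠ Y.p (j + 1))
    {i : ZMod m} (hi : i ∉ Z.D) : ∃ (j : ZMod n) (τ : ℝ), j ∉ Y.D ∧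
      (∀ s, Z.pos i s = Y.pos j (s + τ)) ∧ (∀ s s', Z.tan i s = Y.tan j s') ∧
      ∀ s ∈ Ioo 0 (Z.len i), s + τ ∈ Ioo 0 (Y.len j) := by
  obtain ⟨j, hj, a, b, ha, hab, hb, e1, e2⟩ := h.side i hi
  have hl0 : 0 < ‖Y.p (j + 1) - Y.p j‖ := norm_pos_iff.2 (sub_ne_zero.2 (hne j).symm)
  have he : Z.e i = ((b - a : ℝ) : ℂ) * Y.e j := by
    rw [Table.e, Table.e, e1, e2]; push_cast; ring
  have hba : 0 < b - a := by linarith
  have hℓ : Z.ℓ i = (b - a) * Y.ℓ j := by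
    rw [Table.ℓ, Table.ℓ, he, norm_mul, Complex.norm_real, Real.norm_of_nonneg hba.le]
  have hYl : Y.ℓ j = ‖Y.p (j + 1) - Y.p j‖ := rfl
  have hYl0 : (Y.ℓ j : ℂ) ≠ 0 := by rw [hYl]; exact_mod_cast hl0.ne'
  have hba0 : ((b - a : ℝ) : ℂ) ≠ 0 := by exact_mod_cast hba.ne'
  have hu : Z.e i / Z.ℓ i = Y.e j / Y.ℓ j := by
    rw [he, hℓ, Complex.ofReal_mul, mul_div_mul_left _ _ hba0]
  refine ⟨j, a * Y.ℓ j, hj, fun s => ?_, fun s s' => ?_, fun s hs => ?_⟩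
  · rw [Table.pos_neutral hi, Table.pos_neutral hj, hu, e1]
    have h3 : Y.p (j + 1) - Y.p j = Y.e j := rfl
    rw [h3]
    push_cast
    field_simp
    ring
  · rw [Table.tan_neutral hi, Table.tan_neutral hj, hu]
  · rw [Table.len_neutral hi, hℓ] at hs
    rw [Table.len_neutral hj]
    have hpos : 0 < Y.ℓ j := by rw [hYl]; exact hl0
    constructor
    · have := mul_nonneg ha hpos.le
      linarith [hs.1]
    · have h4 : b * Y.ℓ j ≤ 1 * Y.ℓ j := mul_le_mul_of_nonneg_right hb hpos.le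
      have h5 := hs.2
      nlinarith

section

variable {Z : Dom m} {Y : Dom n} {σ : ZMod m → ZMod n} {τ : ZMod m → ℝ}

/-- The phase point of `Y` which corresponds to a phase point of a neutral side of `Z`. -/
def shf (σ : ZMod m → ZMod n) (τ : ZMod m → ℝ) (z : ZMod m × ℝ × ℝ) : ZMod n × ℝ × ℝ :=
  (σ z.1, z.2.1 + τ z.1, z.2.2)

lemma hit_part (hin : ∀ x, Z.inside x → Y.inside x)
    (hpos : ∀ i ∉ Z.D, ∀ s, Z.pos i s = Y.pos (σ i) (s + τ i))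
    (htan : ∀ i ∉ Z.D, ∀ s s', Z.tan i s = Y.tan (σ i) s')
    (hlen : ∀ i ∉ Z.D, ∀ s ∈ Ioo 0 (Z.len i), s + τ i ∈ Ioo 0 (Y.len (σ i)))
    {z z' : ZMod m × ℝ × ℝ} (hz : z.1 ∉ Z.D) (hz' : z'.1 ∉ Z.D) (h : Z.Hit z z') :
    Y.Hit (shf σ τ z) (shf σ τ z') := by
  obtain ⟨ha, hb, t, ht, h1, h2, h3⟩ := h
  have hd : Z.dir z = Y.dir (shf σ τ z) := by
    simp only [Table.dir, shf]
    rw [htan z.1 hz z.2.1 (z.2.1 + τ z.1)]
  have hd' : Z.dirIn z' = Y.dirIn (shf σ τ z') := by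
    simp only [Table.dirIn, shf]
    rw [htan z'.1 hz' z'.2.1 (z'.2.1 + τ z'.1)]
  refine ⟨⟨hlen z.1 hz _ ha.1, ha.2⟩, ⟨hlen z'.1 hz' _ hb.1, hb.2⟩, t, ht, ?_, ?_, ?_⟩
  · rw [← hd]
    simp only [shf]
    rw [← hpos z.1 hz, ← hpos z'.1 hz']
    exact h1
  · rw [← hd, ← hd']
    exact h2
  · intro u hu
    rw [← hd]
    simp only [shf]
    rw [← hpos z.1 hz]
    exact hin _ (h3 u hu)

lemma path_part (hin : ∀ x, Z.inside x → Y.inside x)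
    (hσ : ∀ i ∉ Z.D, σ i ∉ Y.D)
    (hpos : ∀ i ∉ Z.D, ∀ s, Z.pos i s = Y.pos (σ i) (s + τ i))
    (htan : ∀ i ∉ Z.D, ∀ s s', Z.tan i s = Y.tan (σ i) s')
    (hlen : ∀ i ∉ Z.D, ∀ s ∈ Ioo 0 (Z.len i), s + τ i ∈ Ioo 0 (Y.len (σ i))) :
    ∀ (L : List (ZMod m)) (z : ZMod m × ℝ × ℝ), Z.Path L z →
      Y.Path (L.map σ) (shf σ τ z) := by
  intro L
  induction L with
  | nil => intro z h; exact hσ _ h
  | cons j L ih =>
    rintro z ⟨hz, w', hh, hp⟩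
    exact ⟨hσ _ hz, (w'.1 + τ j, w'.2), hit_part hin hpos htan hlen hz hp.neutral hh, ih _ hp⟩

lemma S_part (hin : ∀ x, Z.inside x → Y.inside x)
    (hσ : ∀ i ∉ Z.D, σ i ∉ Y.D)
    (hpos : ∀ i ∉ Z.D, ∀ s, Z.pos i s = Y.pos (σ i) (s + τ i))
    (htan : ∀ i ∉ Z.D, ∀ s s', Z.tan i s = Y.tan (σ i) s')
    (hlen : ∀ i ∉ Z.D, ∀ s ∈ Ioo 0 (Z.len i), s + τ i ∈ Ioo 0 (Y.len (σ i)))
    (i : ZMod m) : Z.S i ⊆ (fun w : ℝ × ℝ => w + (τ i, 0)) ⁻¹' Y.S (σ i) := by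
  rintro w ⟨hw, hN⟩
  have hi : i ∉ Z.D := by
    obtain ⟨L, hL, hp⟩ := hN 0
    exact hp.neutral
  have he : w + (τ i, 0) = (w.1 + τ i, w.2) := by
    ext <;> simp
  rw [Set.mem_preimage, he]
  refine ⟨⟨hlen i hi _ hw.1, hw.2⟩, fun N => ?_⟩
  obtain ⟨L, hL, hp⟩ := hN N
  exact ⟨L.map σ, by simpa using hL, path_part hin hσ hpos htan hlen L _ hp⟩

end

/-- Hyperbolicity is inherited by parts. -/
theorem SG.hyperbolic_of_part [NeZero n] [NeZero m] {Z : Dom m} {Y : Dom n} {C η C' η' : ℝ}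
    (hY : SG Y C η) (hZ : SG Z C' η') (h : Part Z Y) (hyp : Y.Hyperbolic) : Z.Hyperbolic := by
  rw [hY.hyperbolic_iff_null] at hyp
  rw [hZ.hyperbolic_iff_null]
  have hf : ∀ i : ZMod m, ∃ (j : ZMod n) (τ : ℝ), i ∉ Z.D → (j ∉ Y.D ∧
      (∀ s, Z.pos i s = Y.pos j (s + τ)) ∧ (∀ s s', Z.tan i s = Y.tan j s') ∧
      ∀ s ∈ Ioo 0 (Z.len i), s + τ ∈ Ioo 0 (Y.len j)) := by
    intro i
    by_cases hi : i ∈ Z.D
    · exact ⟨0, 0, fun h => absurd hi h⟩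
    · obtain ⟨j, τ, h1⟩ := h.frame hY.dom.ne hi
      exact ⟨j, τ, fun _ => h1⟩
  choose σ τ hst using hf
  intro i
  refine measure_mono_null (S_part h.sub (fun i hi => (hst i hi).1) (fun i hi => (hst i hi).2.1)
    (fun i hi => (hst i hi).2.2.1) (fun i hi => (hst i hi).2.2.2) i) ?_
  rw [measure_preimage_add_right]
  exact hyp (σ i)

/-- A table with more arcs and smaller radii is a part. -/
lemma part_of_le {p : ZMod n → ℂ} {Ω : Set ℂ} {D D' : Set (ZMod n)} {ρ ρ' : ZMod n → ℝ}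
    (hne : ∀ k, p k ≠ p (k + 1)) (hD : D ⊆ D')
    (h1 : ∀ k ∈ D, ‖p (k + 1) - p k‖ ≤ 2 * ρ' k) (h2 : ∀ k ∈ D, ρ' k ≤ ρ k) :
    Part (Dom.mk (Table.mk p D' ρ') Ω) (Dom.mk (Table.mk p D ρ) Ω) where
  sub := fun _ hx => inside_mono hne hD h1 h2 hx
  side := fun i hi => ⟨i, fun h => hi (hD h), 0, 1, le_rfl, one_pos, le_rfl, by simp, by simp⟩

end Pool.Agent.Lib.MP_19d7db_an
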